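import Pool.Agent.TH662.IP.Mem

/-!
# Existence of an isolated point of a semialgebraic set is `∃∀ℝ`-complete

The input is a dimension `n` in unary and a quantifier-free formula `φ(x₀, …, xₙ₋₁)`, a Boolean
combination of equations and strict inequalities between polynomials with integer coefficients; the
question is whether the subset of `ℝⁿ` defined by `φ` has an isolated point.

Sketch of the proof of hardness.

1. A sentence `∃ x ∀ y, φ` is brought to the following form. There are a sum of squares `F(x, y)`
   of cubic polynomials, `x, y ∈ ℝⁿ`, and `h(x) = x₀² (1 - |x|²)`. If the sentence is true then there
   are `x` in the unit ball and `c > 0` with `h(x) > 0` and `F(x, y) ≥ c` for all `y` (a positive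
   polynomial of degree four is bounded below by a negative power of `1 + |y|²`, and a chain of
   squarings compensates for that). If it is false then for every `x` in the unit ball with
   `h(x) > 0` there is `y` with `F(x, y) = 0`.
2. Put `ψ(x, y) = h(x) F(x, y) + ρ (1 + |y|²)^k` with a doubly exponentially small `ρ`. There is a
   doubly exponentially small `τ` such that the sentence is true if and only if there is a point `x`
   of the ball with `ψ(x, y) ≥ τ` for all `y`.
3. At a maximum `x` of the function `v(x) = min_y ψ(x, y)` there are at most `n + 1` critical points
   `y_i` of `ψ(x, ·)` with the same value and multipliers `λ_i` with `∑ λ_i = 1` and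
   `∑ λ_i ∂ₓψ(x, y_i) = 0`. We add to `ψ` a perturbation `∑ θ_a b_a(y) + ∑ θ'_j x_j`, where the `b_a`
   are polynomially many explicit polynomials, such that for distinct `y_i` the parameters of one
   block can be solved for from `x, y_i, λ_i` and the other parameters. By a weighted form of
   Siegel's lemma there is an algebraic relation between the parameters and each coordinate of
   `x, y_i, λ_i`, and for a suitable direction `θ`, with integer coordinates of polynomially many
   bits, the relation remains nontrivial. Hence all solutions `(x, y_i, λ_i)` are isolated.
4. The formula of the reduction says that some variables are bits (these give the direction `θ`),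
   that certain variables are the constants `2^(-2^i)`, that `(x, y_i, λ_i)` is a solution of the
   system of point 3, and that a further vector `(z, t)` is either zero or satisfies `t > 0` and
   `ψ(x, z / t) < τ`. If there is `y` with `ψ(x, y) < τ` then the points `(z, t) = (t y, t)`, with
   `t` tending to zero, show that the point is not isolated. If there is none then `(z, t) = 0`, and
   for a suitable direction the point is isolated.
-/

namespace Pool.Agent.Results.MP_47d501_lc.IsolatedPointComplete

open Pool.Agent.NPC Pool.Agent.NPC.ER Pool.Agent.NPC.TH662

/-- ISOLATED-POINT-EXISTENCE is `∃∀ℝ`-complete under polynomial-time many-one reductions. -/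
theorem result : EARComplete (lang IsolatedPointExistence) := isolatedPoint_complete

end Pool.Agent.Results.MP_47d501_lc.IsolatedPointComplete
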